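import Pool.Agent.Run7.h104.AC.Defs

/-!
# Project AC (helper104, MP_0b1b3b_an): piece SIG
-/

set_option autoImplicit false

namespace Run7.h590.AC

open MeasureTheory Complex Set Filter Topology Metric Pool.Agent.Run7.h104.AC

theorem meas_Ann (δ : ℝ) : MeasurableSet (Ann δ) := by
  unfold Ann
  exact (measurableSet_lt measurable_const measurable_norm).inter
    (measurableSet_lt measurable_norm measurable_const)

/-- `1 / |z|` is integrable near `0` -/
theorem inv_norm_int (r : ℝ) : IntegrableOn (fun z : ℂ => ‖z‖⁻¹) (ball 0 r) := by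
  rw [integrableOn_fun_norm_addHaar volume (f := fun y : ℝ => y⁻¹), Complex.finrank_real_complex]
  have h1 : ∀ y ∈ Ioo (0 : ℝ) r, y ^ (2 - 1) • y⁻¹ = (1 : ℝ) := by
    intro y hy
    rw [smul_eq_mul, show 2 - 1 = 1 from rfl, pow_one, mul_inv_cancel₀ hy.1.ne']
  rw [integrableOn_congr_fun h1 measurableSet_Ioo]
  exact integrableOn_const (by simp)

theorem t_SIG (hSG : S_SG) (hHARM : S_HARM) (hFUB : S_FUB) (hSIGD : S_SIGD) : S_SIG := by
  intro R0 β F hU
  obtain ⟨C, δ0, hC, hδ0, hsg⟩ := hSG R0 β F hU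
  obtain ⟨H, _, _, _, _, hHint⟩ := hHARM R0 β F hU
  obtain ⟨δ1, hδ1, hδ11, hnn⟩ := hSIGD R0 β F hU
  set f : ℂ → ℝ := fun z => Rw z * sig β F z with hf
  have hAnnInt : ∀ δ : ℝ, 0 < δ → δ < 1 → IntegrableOn f (Ann δ) := by
    intro δ h0 h1
    have h2 := (hHint δ h0 h1).add ((hFUB R0 β F hU δ h0 h1).1.const_mul 3)
    refine h2.congr_fun (fun z _ => ?_) (meas_Ann δ)
    show Rw z * har β F z + 3 * (Rw z * U (F z)) = Rw z * sig β F z
    unfold sig
    ring
  -- the annuli exhaust the punctured disc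
  set s : ℕ → Set ℂ := fun n => Ann (δ1 / (n + 2)) with hs
  have hdn : ∀ n : ℕ, 0 < δ1 / ((n : ℝ) + 2) ∧ δ1 / ((n : ℝ) + 2) < δ1 := by
    intro n
    have hn : (0 : ℝ) ≤ n := Nat.cast_nonneg n
    refine ⟨by positivity, ?_⟩
    rw [div_lt_iff₀ (by positivity)]
    nlinarith
  have hsU : ⋃ n, s n = ball (0 : ℂ) 1 \ {0} := by
    ext z
    simp only [hs, Ann, mem_iUnion, mem_setOf_eq, mem_diff, mem_ball, dist_zero_right,
      mem_singleton_iff]
    constructor
    · rintro ⟨n, h1, h2⟩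
      refine ⟨h2, ?_⟩
      rintro rfl
      rw [norm_zero] at h1
      exact absurd h1 (not_lt.2 (hdn n).1.le)
    · rintro ⟨h1, h2⟩
      have hz : 0 < ‖z‖ := norm_pos_iff.2 h2
      obtain ⟨n, hn⟩ := exists_nat_gt (δ1 / ‖z‖)
      refine ⟨n, ?_, h1⟩
      rw [div_lt_iff₀ (by positivity)]
      rw [div_lt_iff₀ hz] at hn
      nlinarith
  have hsm : Monotone s := by
    intro a b hab z hz
    refine ⟨lt_of_le_of_lt ?_ hz.1, hz.2⟩
    have : (a : ℝ) ≤ b := by exact_mod_cast hab
    exact div_le_div_of_nonneg_left hδ1.le (by positivity) (by linarith)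
  have hsmeas : ∀ n, MeasurableSet (s n) := fun n => meas_Ann _
  have hfm : AEStronglyMeasurable f (volume.restrict (ball (0 : ℂ) 1 \ {0})) := by
    rw [← hsU, aestronglyMeasurable_iUnion_iff]
    intro n
    exact (hAnnInt _ (hdn n).1 ((hdn n).2.trans hδ11)).aestronglyMeasurable
  have hae : (ball (0 : ℂ) 1 \ {0} : Set ℂ) =ᵐ[volume] ball (0 : ℂ) 1 := by
    exact diff_null_ae_eq_self (measure_singleton 0)
  have hfm' : AEStronglyMeasurable f (volume.restrict (ball (0 : ℂ) 1)) := by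
    rwa [← Measure.restrict_congr_set hae]
  -- integrability
  set r : ℝ := min (δ0 / 2) (1 / 2) with hr
  have hr0 : 0 < r := lt_min (by linarith) (by norm_num)
  have hr1 : r < 1 := lt_of_le_of_lt (min_le_right _ _) (by norm_num)
  have hrδ : r < δ0 := lt_of_le_of_lt (min_le_left _ _) (by linarith)
  have hcb : closedBall (0 : ℂ) r ⊆ ball 0 1 := closedBall_subset_ball hr1
  have hint1 : IntegrableOn f (closedBall 0 r) := by
    have hg : IntegrableOn (fun z : ℂ => 4 * C * ‖z‖⁻¹) (closedBall 0 r) :=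
      ((inv_norm_int 1).mono_set hcb).const_mul (4 * C)
    refine Integrable.mono' hg (hfm'.mono_measure (Measure.restrict_mono hcb le_rfl)) ?_
    rw [ae_restrict_iff' isClosed_closedBall.measurableSet]
    refine Filter.Eventually.of_forall fun z hz => ?_
    have hz' : ‖z‖ ≤ r := by simpa using hz
    by_cases h0 : z = 0
    · subst h0
      simp [hf, Rw]
    · have hzp : 0 < ‖z‖ := norm_pos_iff.2 h0
      have h1 := hsg z h0 (lt_of_le_of_lt hz' hrδ)
      have h2 : ‖1 + z‖ ≤ 2 := by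
        calc ‖1 + z‖ ≤ ‖(1 : ℂ)‖ + ‖z‖ := norm_add_le _ _
          _ ≤ 2 := by rw [norm_one]; linarith
      have h3 : ‖1 + z‖ ^ 2 ≤ 4 := by
        have := norm_nonneg (1 + z)
        nlinarith
      show ‖Rw z * sig β F z‖ ≤ 4 * C * ‖z‖⁻¹
      rw [norm_mul, Real.norm_eq_abs, Real.norm_eq_abs]
      have h4 : |Rw z| ≤ 4 / ‖z‖ ^ 3 := by
        unfold Rw
        rw [abs_of_nonneg (by positivity)]
        exact div_le_div_of_nonneg_right h3 (by positivity)
      calc |Rw z| * |sig β F z| ≤ 4 / ‖z‖ ^ 3 * (C * ‖z‖ ^ 2) :=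
            mul_le_mul h4 h1 (abs_nonneg _) (by positivity)
        _ = 4 * C * ‖z‖⁻¹ := by field_simp
  have hcover : ball (0 : ℂ) 1 ⊆ closedBall 0 r ∪ Ann r := by
    intro z hz
    rw [mem_ball, dist_zero_right] at hz
    rcases le_or_gt ‖z‖ r with h | h
    · left
      simpa using h
    · right
      exact ⟨h, hz⟩
  have hint : IntegrableOn f (ball 0 1) :=
    (hint1.union (hAnnInt r hr0 hr1)).mono_set hcover
  refine ⟨hint, ?_⟩
  have hlim := tendsto_setIntegral_of_monotone (μ := volume) (f := f) hsmeas hsm (by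
    rw [hsU]
    exact hint.mono_set diff_subset)
  rw [hsU, setIntegral_congr_set hae] at hlim
  refine ge_of_tendsto' hlim fun n => ?_
  exact hnn _ (hdn n).1 (hdn n).2

end Run7.h590.AC
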