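import Pool.Agent.Run7.h104.AC.Defs

/-!
# Project AC (helper104, MP_0b1b3b_an): piece SIGD
-/

set_option autoImplicit false

namespace Run7.h590.AC

open MeasureTheory Complex Set Filter Topology Metric Pool.Agent.Run7.h104.AC

theorem t_SIGD (hPOL : S_POL) (hCAH : S_CAH) (hHARM : S_HARM) (hGB : S_GB) (hAVG : S_AVG)
    (hFUB : S_FUB) : S_SIGD := by
  intro R0 β F hU
  have hβ := hU.hβ
  -- the choice of `δ0`
  have hcont : ContinuousAt F 0 :=
    (hU.hF.differentiableAt (isOpen_ball.mem_nhds (mem_ball_self (by linarith [hU.hR])))).continuousAt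
  obtain ⟨δ1, hδ1, hF1⟩ := Metric.continuousAt_iff.1 hcont (1 / 2) (by norm_num)
  refine ⟨min δ1 (1 / 2), lt_min hδ1 (by norm_num), lt_of_le_of_lt (min_le_right _ _) (by norm_num),
    fun δ hδ hδ0 => ?_⟩
  have hδ1' : δ < 1 := hδ0.trans (lt_of_le_of_lt (min_le_right _ _) (by norm_num))
  have hsmall : ∀ z : ℂ, ‖z‖ ≤ δ → ‖F z‖ < 1 / 2 := by
    intro z hz
    have h1 : dist z 0 < δ1 := by
      rw [dist_zero_right]
      exact lt_of_le_of_lt hz (hδ0.trans_le (min_le_left _ _))
    have h2 := hF1 h1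
    rwa [hU.F0, dist_zero_right] at h2
  obtain ⟨H, hH, hH0, hH1, hHeq, hHint⟩ := hHARM R0 β F hU
  have hI1 := hHint δ hδ hδ1'
  obtain ⟨hI2, hCI, hFubEq⟩ := hFUB R0 β F hU δ hδ hδ1'
  have hsplit : ∫ z in Ann δ, Rw z * sig β F z =
      (∫ z in Ann δ, Rw z * har β F z) + 3 * ∫ z in Ann δ, Rw z * U (F z) := by
    rw [← integral_const_mul, ← integral_add hI1 (hI2.const_mul 3)]
    congr 1
    funext z
    unfold sig
    ring
  have hAnn : MeasurableSet (Ann δ) := by
    unfold Ann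
    exact (measurableSet_lt measurable_const measurable_norm).inter
      (measurableSet_lt measurable_norm measurable_const)
  -- the harmonic part
  have hfeq : ∀ z ∈ Ann δ, Rw z * har β F z = Rw z * (H z).re := by
    intro z hz
    have hz0 : z ≠ 0 := by
      rintro rfl
      have := hz.1
      rw [norm_zero] at this
      linarith
    rw [hHeq z hz0 hz.2]
  have hI1' : IntegrableOn (fun z => Rw z * (H z).re) (Ann δ) :=
    hI1.congr_fun hfeq hAnn
  have hpart1 : ∫ z in Ann δ, Rw z * har β F z = -(3 * Real.pi * β * (1 - δ)) := by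
    rw [setIntegral_congr_fun hAnn hfeq, (hPOL δ _ hδ hδ1' hI1').2,
      intervalIntegral.integral_of_le hδ1'.le, integral_Ioc_eq_integral_Ioo]
    have h1 : ∀ r ∈ Ioo δ 1, 2 * Real.pi * r *
        Real.circleAverage (fun z => Rw z * (H z).re) 0 r = -(3 * Real.pi * β) := by
      intro r hr
      have hr0 : 0 < r := hδ.trans hr.1
      have h2 : Real.circleAverage (fun z => Rw z * (H z).re) 0 r =
          Real.circleAverage (fun z => (r ^ 3)⁻¹ • (‖1 + z‖ ^ 2 * (H z).re)) 0 r := by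
        apply Real.circleAverage_congr_sphere
        intro z hz
        have hz' : ‖z‖ = r := by
          rw [mem_sphere_iff_norm, sub_zero, abs_of_pos hr0] at hz
          exact hz
        show Rw z * (H z).re = (r ^ 3)⁻¹ * (‖1 + z‖ ^ 2 * (H z).re)
        unfold Rw
        rw [hz']
        ring
      rw [h2, Real.circleAverage_fun_smul, hCAH 1 r H hr0 hr.2 hH, hH0, hH1, smul_eq_mul]
      field_simp
      ring
    rw [setIntegral_congr_fun measurableSet_Ioo h1, setIntegral_const, Measure.real,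
      Real.volume_Ioo, ENNReal.toReal_ofReal (by linarith), smul_eq_mul]
    ring
  -- the potential part
  obtain ⟨hC1, hC2, hC3⟩ := hAVG
  have hCdc : Continuous Cd := by
    unfold Cd
    fun_prop
  have hne : ∀ ζ : ℂ, ‖ζ‖ = 1 → Cd ζ ≠ 0 := by
    intro ζ hζ h
    have := (hC1 ζ hζ).1
    rw [h, norm_zero] at this
    linarith
  have hsph : ∀ ζ ∈ sphere (0 : ℂ) |1|, ‖ζ‖ = 1 := by
    intro ζ hζ
    rw [mem_sphere_iff_norm, sub_zero, abs_one] at hζ
    exact hζ
  have ci1 : CircleIntegrable (fun ζ => Real.log ‖Cd ζ‖) 0 1 := by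
    apply ContinuousOn.circleIntegrable'
    apply ContinuousOn.log (hCdc.norm.continuousOn)
    intro ζ hζ
    exact norm_ne_zero_iff.2 (hne ζ (hsph ζ hζ))
  have ci2 : CircleIntegrable (fun ζ => (1 / Cd ζ).re) 0 1 := by
    apply ContinuousOn.circleIntegrable'
    apply Complex.continuous_re.comp_continuousOn
    apply ContinuousOn.div continuousOn_const hCdc.continuousOn
    intro ζ hζ
    exact hne ζ (hsph ζ hζ)
  set c1 : ℝ := 2 * Real.pi * (1 / δ - δ) with hc1
  set c2 : ℝ := -(2 * Real.pi * β * (1 - δ)) with hc2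
  have ci1' : CircleIntegrable (fun ζ => c1 • Real.log ‖Cd ζ‖) 0 1 := ci1.const_fun_smul
  have ci2' : CircleIntegrable (fun ζ => c2 • (1 / Cd ζ).re) 0 1 := ci2.const_fun_smul
  have ci3 : CircleIntegrable (fun ζ => c1 • Real.log ‖Cd ζ‖ + c2 • (1 / Cd ζ).re) 0 1 :=
    ci1'.add ci2'
  have hlow : Real.circleAverage (fun ζ => c1 • Real.log ‖Cd ζ‖ + c2 • (1 / Cd ζ).re) 0 1 =
      Real.pi * β * (1 - δ) := by
    rw [Real.circleAverage_fun_add ci1' ci2', Real.circleAverage_fun_smul,
      Real.circleAverage_fun_smul, hC2, hC3, smul_eq_mul, smul_eq_mul, hc2]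
    ring
  have hpart2 : Real.pi * β * (1 - δ) ≤ ∫ z in Ann δ, Rw z * U (F z) := by
    rw [hFubEq, ← hlow]
    apply Real.circleAverage_mono ci3 hCI
    intro ζ hζ
    have hζ1 := hsph ζ hζ
    have h1 := (hGB R0 β F hU (Cd ζ) δ (hne ζ hζ1) hδ hδ1' (by
      intro z hz h
      have h2 := hsmall z hz
      rw [h] at h2
      have h3 := (hC1 ζ hζ1).1
      linarith)).2
    refine le_trans (le_of_eq ?_) h1
    show c1 * Real.log ‖Cd ζ‖ + c2 * (1 / Cd ζ).re = _
    rw [hc1, hc2]
    ring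
  rw [hsplit, hpart1]
  nlinarith

end Run7.h590.AC
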